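import Pool.Agent.Helper347.SabDefs

/-!
# Faithful circuit covers for weights in `k ℕ`, `k` odd: subdivisions of the Petersen graph
-/

set_option autoImplicit false

namespace Pool.Agent.P8H23.CC

open Finset Pool.Agent.Helper347.Sab

/-- The first ends of the 15 edges of the Petersen graph on `{0, ..., 9}`: the edges `0, ..., 4` are the
pentagon `0 1 2 3 4`, the edges `5, ..., 9` join `i` and `i + 5`, and the edges `10, ..., 14` join `i + 5` and
`(i + 2 mod 5) + 5` (the other pentagon). -/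
def src : Fin 15 → Fin 10 := ![0, 1, 2, 3, 4, 0, 1, 2, 3, 4, 5, 6, 7, 8, 9]

/-- The second ends of the 15 edges of the Petersen graph. -/
def tgt : Fin 15 → Fin 10 := ![1, 2, 3, 4, 0, 5, 6, 7, 8, 9, 7, 8, 9, 5, 6]

/-- The weight `1` on the two pentagons and `2` on the matching between them. -/
def pw : Fin 15 → ℕ := ![1, 1, 1, 1, 1, 2, 2, 2, 2, 2, 1, 1, 1, 1, 1]

/-- A subdivision of the Petersen graph in the multigraph `G`: different branch vertices `b u`, and for
every edge `e` of the Petersen graph a path `pt e 0, ..., pt e (len e)` with the edges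
`ed e 0, ..., ed e (len e - 1)` from `b (src e)` to `b (tgt e)`. The interior vertices of the paths are
different from each other and from the branch vertices, and the edges of the paths are different. -/
structure PetersenSub {V E : Type} (G : MGraph V E) where
  b : Fin 10 → V
  len : Fin 15 → ℕ
  pt : Fin 15 → ℕ → V
  ed : Fin 15 → ℕ → E
  pos : ∀ e, 0 < len e
  first : ∀ e, pt e 0 = b (src e)
  last : ∀ e, pt e (len e) = b (tgt e)
  ends : ∀ e j, j < len e → G.ends (ed e j) = s(pt e j, pt e (j + 1))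
  binj : Function.Injective b
  inner : ∀ e j u, 0 < j → j < len e → pt e j ≠ b u
  pinj : ∀ e j e' j', 0 < j → j < len e → 0 < j' → j' < len e' → pt e j = pt e' j' →
    e = e' ∧ j = j'
  einj : ∀ e j e' j', j < len e → j' < len e' → ed e j = ed e' j' → e = e' ∧ j = j'

section

variable {V E : Type} [Fintype V] [DecidableEq V] [Fintype E] [DecidableEq E]

/-- The edge cut of `X`: the edges with exactly one end in `X`. -/
def cut (G : MGraph V E) (X : Finset V) : Finset E :=
  univ.filter fun e => (∃ v ∈ G.ends e, v ∈ X) ∧ ∃ v ∈ G.ends e, v ∉ X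

/-- Every edge cut has even weight. -/
def Eulerian (G : MGraph V E) (w : E → ℕ) : Prop := ∀ X : Finset V, Even (∑ f ∈ cut G X, w f)

/-- No edge of an edge cut is heavier than the rest of the cut. -/
def Admissible (G : MGraph V E) (w : E → ℕ) : Prop :=
  ∀ X : Finset V, ∀ e ∈ cut G X, w e ≤ ∑ f ∈ (cut G X).erase e, w f

/-- A faithful circuit cover: a multiset of circuits such that every edge `e` is in exactly `w e` of
them. -/
def HasFaithfulCover (G : MGraph V E) (w : E → ℕ) : Prop :=
  ∃ F : Multiset (Finset E), (∀ C ∈ F, IsCircuit G C) ∧ ∀ e, F.countP (fun C => e ∈ C) = w e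

/-- The property `P_k` of the graph `G`. -/
def HasP (k : ℕ) (G : MGraph V E) : Prop :=
  ∀ w : E → ℕ, (∀ e, k ∣ w e) → Admissible G w → Eulerian G w → HasFaithfulCover G w

/-! ### The weight of a subdivision -/

variable {G : MGraph V E} (P : PetersenSub G) (k : ℕ)

/-- The weight `k` on the paths of the pentagons, `2 k` on those of the matching, and `0` elsewhere. -/
def wt (f : E) : ℕ := ∑ e : Fin 15, ∑ j ∈ range (P.len e), if P.ed e j = f then k * pw e else 0

omit [Fintype V] [DecidableEq V] [Fintype E] in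
lemma wt_ed {e : Fin 15} {j : ℕ} (hj : j < P.len e) : wt P k (P.ed e j) = k * pw e := by
  unfold wt
  rw [sum_eq_single e, sum_eq_single j]
  · rw [if_pos rfl]
  · intro j' hj' hne
    rw [if_neg]
    intro h
    exact hne (P.einj e j' e j (mem_range.1 hj') hj h).2
  · intro h
    exact absurd (mem_range.2 hj) h
  · intro e' _ hne
    apply sum_eq_zero
    intro j' hj'
    rw [if_neg]
    intro h
    exact hne (P.einj e' j' e j (mem_range.1 hj') hj h).1
  · intro h
    exact absurd (mem_univ e) h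

omit [Fintype V] [DecidableEq V] [Fintype E] in
lemma wt_pos {f : E} (h : wt P k f ≠ 0) : ∃ e j, j < P.len e ∧ P.ed e j = f := by
  by_contra hc
  push Not at hc
  apply h
  unfold wt
  apply sum_eq_zero
  intro e _
  apply sum_eq_zero
  intro j hj
  rw [if_neg (hc e j (mem_range.1 hj))]

omit [Fintype V] [DecidableEq V] [Fintype E] in
lemma wt_dvd (f : E) : k ∣ wt P k f := by
  unfold wt
  apply dvd_sum
  intro e _
  apply dvd_sum
  intro j _
  split_ifs
  · exact Dvd.intro _ rfl
  · exact dvd_zero _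

/-- the number of the edges of the path of `e` in `T` -/
def cr (T : Finset E) (e : Fin 15) : ℕ := ((range (P.len e)).filter fun j => P.ed e j ∈ T).card

omit [Fintype V] [DecidableEq V] [Fintype E] in
lemma wt_sum (T : Finset E) : ∑ f ∈ T, wt P k f = ∑ e, k * pw e * cr P T e := by
  unfold wt
  rw [sum_comm]
  refine sum_congr rfl fun e _ => ?_
  rw [sum_comm]
  unfold cr
  rw [card_filter, mul_sum]
  refine sum_congr rfl fun j _ => ?_
  rw [sum_ite_eq]
  split_ifs <;> simp

omit [Fintype V] in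
/-- crossing parity of a walk -/
lemma cross (X : Finset V) (s : ℕ → V) (n : ℕ) :
    ((range n).filter fun j => ¬ (s j ∈ X ↔ s (j + 1) ∈ X)).card % 2 =
      if (s 0 ∈ X ↔ s n ∈ X) then 0 else 1 := by
  induction n with
  | zero => simp
  | succ n ih =>
    rw [range_add_one, filter_insert]
    by_cases h : (s n ∈ X ↔ s (n + 1) ∈ X)
    · rw [if_neg (not_not.2 h), ih]
      by_cases h0 : (s 0 ∈ X ↔ s n ∈ X)
      · rw [if_pos h0, if_pos (h0.trans h)]
      · rw [if_neg h0, if_neg fun h1 => h0 (h1.trans h.symm)]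
    · rw [if_pos h, card_insert_of_notMem (by simp), Nat.add_mod, ih]
      by_cases h0 : (s 0 ∈ X ↔ s n ∈ X)
      · rw [if_pos h0, if_neg fun h1 => h (h0.symm.trans h1)]
      · rw [if_neg h0, if_pos (by tauto)]

omit [DecidableEq E] in
lemma mem_cut {X : Finset V} {e : Fin 15} {j : ℕ} (hj : j < P.len e) :
    P.ed e j ∈ cut G X ↔ ¬ (P.pt e j ∈ X ↔ P.pt e (j + 1) ∈ X) := by
  unfold cut
  rw [mem_filter, P.ends e j hj]
  constructor
  · rintro ⟨_, ⟨v, hv, hvX⟩, u, hu, huX⟩ h
    rw [Sym2.mem_iff] at hv hu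
    rcases hv with rfl | rfl <;> rcases hu with rfl | rfl
    · exact huX hvX
    · exact huX (h.1 hvX)
    · exact huX (h.2 hvX)
    · exact huX hvX
  · intro h
    refine ⟨mem_univ _, ?_⟩
    by_cases h1 : P.pt e j ∈ X
    · exact ⟨⟨_, Sym2.mem_mk_left _ _, h1⟩, _, Sym2.mem_mk_right _ _, fun h2 => h (by tauto)⟩
    · exact ⟨⟨_, Sym2.mem_mk_right _ _, by tauto⟩, _, Sym2.mem_mk_left _ _, h1⟩

lemma cr_mod (X : Finset V) (e : Fin 15) :
    cr P (cut G X) e % 2 = if (P.b (src e) ∈ X ↔ P.b (tgt e) ∈ X) then 0 else 1 := by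
  have h := cross X (P.pt e) (P.len e)
  rw [P.first, P.last] at h
  rw [← h]
  unfold cr
  congr 2
  refine filter_congr fun j hj => ?_
  exact mem_cut P (mem_range.1 hj)

/-- the crossing number in the Petersen graph -/
def dl (y : Fin 10 → Bool) (e : Fin 15) : ℕ := if y (src e) = y (tgt e) then 0 else 1

lemma even_dl : ∀ y : Fin 10 → Bool, (∑ e : Fin 15, pw e * dl y e) % 2 = 0 := by decide +kernel

lemma adm_dl : ∀ y : Fin 10 → Bool, ∀ e : Fin 15, dl y e = 1 →
    2 * pw e ≤ ∑ e : Fin 15, pw e * dl y e := by decide +kernel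

lemma cr_dl (X : Finset V) (e : Fin 15) :
    cr P (cut G X) e % 2 = dl (fun u => decide (P.b u ∈ X)) e := by
  rw [cr_mod]
  unfold dl
  by_cases h : (P.b (src e) ∈ X ↔ P.b (tgt e) ∈ X)
  · rw [if_pos h, if_pos]
    exact decide_eq_decide.2 h
  · rw [if_neg h, if_neg]
    intro h1
    exact h (decide_eq_decide.1 h1)

lemma eul : Eulerian G (wt P k) := by
  intro X
  rw [wt_sum]
  have h1 : ∑ e, k * pw e * cr P (cut G X) e = k * ∑ e, pw e * cr P (cut G X) e := by
    rw [mul_sum]
    exact sum_congr rfl fun e _ => by ring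
  rw [h1]
  apply Even.mul_left
  rw [Nat.even_iff, sum_nat_mod]
  have h2 : ∀ e, pw e * cr P (cut G X) e % 2 =
      pw e * dl (fun u => decide (P.b u ∈ X)) e % 2 := by
    intro e
    rw [Nat.mul_mod, Nat.mul_mod (pw e) (dl _ e), ← cr_dl P X e, Nat.mod_mod]
  rw [sum_congr rfl fun e _ => h2 e, ← sum_nat_mod]
  exact even_dl _

lemma adm : Admissible G (wt P k) := by
  intro X f hf
  by_cases hz : wt P k f = 0
  · rw [hz]
    exact Nat.zero_le _
  obtain ⟨e, j, hj, rfl⟩ := wt_pos P k hz
  have h1 : ∑ g ∈ (cut G X).erase (P.ed e j), wt P k g + wt P k (P.ed e j) =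
      ∑ g ∈ cut G X, wt P k g := sum_erase_add _ _ hf
  have h2 : 2 * (k * pw e) ≤ ∑ g ∈ cut G X, wt P k g := by
    rw [wt_sum]
    have hpos : 1 ≤ cr P (cut G X) e := by
      unfold cr
      exact card_pos.2 ⟨j, mem_filter.2 ⟨mem_range.2 hj, hf⟩⟩
    by_cases h2 : 2 ≤ cr P (cut G X) e
    · calc 2 * (k * pw e) ≤ k * pw e * cr P (cut G X) e := by
            rw [mul_comm 2]
            exact Nat.mul_le_mul_left _ h2
        _ ≤ _ := single_le_sum (f := fun e => k * pw e * cr P (cut G X) e)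
            (fun _ _ => Nat.zero_le _) (mem_univ e)
    · have h3 : cr P (cut G X) e = 1 := by omega
      have h4 := cr_dl P X e
      rw [h3] at h4
      have h5 := adm_dl (fun u => decide (P.b u ∈ X)) e h4.symm
      calc 2 * (k * pw e) = k * (2 * pw e) := by ring
        _ ≤ k * ∑ e, pw e * dl (fun u => decide (P.b u ∈ X)) e := Nat.mul_le_mul_left _ h5
        _ = ∑ e, k * pw e * dl (fun u => decide (P.b u ∈ X)) e := by
            rw [mul_sum]
            exact sum_congr rfl fun e _ => by ring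
        _ ≤ ∑ e, k * pw e * cr P (cut G X) e := by
            refine sum_le_sum fun e _ => Nat.mul_le_mul_left _ ?_
            rw [← cr_dl P X e]
            exact Nat.mod_le _ _
  rw [wt_ed P k hj] at h1 ⊢
  omega

/-! ### Circuits in the subdivision -/

variable {C : Finset E}

omit [Fintype V] [Fintype E] in
lemma at_inner (hU : ∀ f ∈ C, ∃ e j, j < P.len e ∧ P.ed e j = f) {e : Fin 15} {j : ℕ}
    (hj : j + 1 < P.len e) :
    (C.filter fun f => P.pt e (j + 1) ∈ G.ends f) ⊆ {P.ed e j, P.ed e (j + 1)} := by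
  intro f hf
  obtain ⟨hfC, hv⟩ := mem_filter.1 hf
  obtain ⟨e', j', hj', rfl⟩ := hU f hfC
  rw [P.ends e' j' hj', Sym2.mem_iff] at hv
  rw [mem_insert, mem_singleton]
  rcases hv with hv | hv
  · right
    have h0 : 0 < j' := by
      rcases Nat.eq_zero_or_pos j' with h | h
      · subst h
        rw [P.first] at hv
        exact absurd hv (P.inner e (j + 1) _ (Nat.succ_pos j) hj)
      · exact h
    obtain ⟨h1, h2⟩ := P.pinj e (j + 1) e' j' (Nat.succ_pos j) hj h0 hj' hv
    subst h1
    rw [← h2]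
  · left
    have h0 : j' + 1 < P.len e' := by
      rcases Nat.lt_or_ge (j' + 1) (P.len e') with h | h
      · exact h
      · have h3 : j' + 1 = P.len e' := by omega
        rw [h3, P.last] at hv
        exact absurd hv (P.inner e (j + 1) _ (Nat.succ_pos j) hj)
    obtain ⟨h1, h2⟩ := P.pinj e (j + 1) e' (j' + 1) (Nat.succ_pos j) hj (Nat.succ_pos j') h0 hv
    subst h1
    have h3 : j = j' := by omega
    rw [h3]

omit [Fintype V] [Fintype E] in
lemma step (hC : ∀ v, dg G C v = 0 ∨ dg G C v = 2)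
    (hU : ∀ f ∈ C, ∃ e j, j < P.len e ∧ P.ed e j = f) {e : Fin 15} {j : ℕ}
    (hj : j + 1 < P.len e) : P.ed e j ∈ C ↔ P.ed e (j + 1) ∈ C := by
  have hsub := at_inner P hU hj
  have hdg := hC (P.pt e (j + 1))
  unfold dg at hdg
  constructor
  · intro h
    by_contra hn
    have h1 : P.ed e j ∈ C.filter fun f => P.pt e (j + 1) ∈ G.ends f := by
      rw [mem_filter, P.ends e j (by omega)]
      exact ⟨h, Sym2.mem_mk_right _ _⟩
    have h2 : (C.filter fun f => P.pt e (j + 1) ∈ G.ends f) ⊆ {P.ed e j} := by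
      intro f hf
      have h3 := hsub hf
      rw [mem_insert, mem_singleton] at h3
      rcases h3 with h3 | h3
      · exact mem_singleton.2 h3
      · exact absurd (h3 ▸ (mem_filter.1 hf).1) hn
    have h4 := card_le_card h2
    rw [card_singleton] at h4
    have h5 := card_pos.2 ⟨_, h1⟩
    omega
  · intro h
    by_contra hn
    have h1 : P.ed e (j + 1) ∈ C.filter fun f => P.pt e (j + 1) ∈ G.ends f := by
      rw [mem_filter, P.ends e (j + 1) hj]
      exact ⟨h, Sym2.mem_mk_left _ _⟩
    have h2 : (C.filter fun f => P.pt e (j + 1) ∈ G.ends f) ⊆ {P.ed e (j + 1)} := by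
      intro f hf
      have h3 := hsub hf
      rw [mem_insert, mem_singleton] at h3
      rcases h3 with h3 | h3
      · exact absurd (h3 ▸ (mem_filter.1 hf).1) hn
      · exact mem_singleton.2 h3
    have h4 := card_le_card h2
    rw [card_singleton] at h4
    have h5 := card_pos.2 ⟨_, h1⟩
    omega

omit [Fintype V] [Fintype E] in
lemma prop0 (hC : ∀ v, dg G C v = 0 ∨ dg G C v = 2)
    (hU : ∀ f ∈ C, ∃ e j, j < P.len e ∧ P.ed e j = f) {e : Fin 15} (j : ℕ)
    (hj : j < P.len e) : P.ed e j ∈ C ↔ P.ed e 0 ∈ C := by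
  induction j with
  | zero => exact Iff.rfl
  | succ j ih => exact (step P hC hU hj).symm.trans (ih (by omega))

lemma src_ne_tgt : ∀ e, src e ≠ tgt e := by decide

omit [Fintype V] [Fintype E] in
lemma deg (hC : ∀ v, dg G C v = 0 ∨ dg G C v = 2)
    (hU : ∀ f ∈ C, ∃ e j, j < P.len e ∧ P.ed e j = f) (u : Fin 10) :
    dg G C (P.b u) = ∑ e : Fin 15, if (src e = u ∨ tgt e = u) ∧ P.ed e 0 ∈ C then 1 else 0 := by
  rw [← card_filter]
  unfold dg
  symm
  refine card_nbij (fun e => if src e = u then P.ed e 0 else P.ed e (P.len e - 1)) ?_ ?_ ?_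
  · intro e he
    obtain ⟨_, he, hD⟩ := mem_filter.1 he
    by_cases h : src e = u
    · simp only [if_pos h]
      rw [mem_coe, mem_filter, P.ends e 0 (P.pos e), P.first, h]
      exact ⟨hD, Sym2.mem_mk_left _ _⟩
    · simp only [if_neg h]
      have h1 : tgt e = u := he.resolve_left h
      have hp := P.pos e
      have h2 : P.len e - 1 + 1 = P.len e := by omega
      rw [mem_coe, mem_filter, P.ends e (P.len e - 1) (by omega), h2, P.last, h1]
      exact ⟨(prop0 P hC hU _ (by omega)).2 hD, Sym2.mem_mk_right _ _⟩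
  · intro e he e' he' h
    have hp := P.pos e
    have hp' := P.pos e'
    simp only at h
    split_ifs at h
    · exact (P.einj e 0 e' 0 hp hp' h).1
    · exact (P.einj e 0 e' _ hp (by omega) h).1
    · exact (P.einj e _ e' 0 (by omega) hp' h).1
    · exact (P.einj e _ e' _ (by omega) (by omega) h).1
  · intro f hf
    obtain ⟨hfC, hv⟩ := mem_filter.1 (mem_coe.1 hf)
    obtain ⟨e, j, hj, rfl⟩ := hU f hfC
    have hD : P.ed e 0 ∈ C := (prop0 P hC hU j hj).1 hfC
    rw [P.ends e j hj, Sym2.mem_iff] at hv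
    rcases hv with hv | hv
    · have h0 : j = 0 := by
        by_contra h
        exact P.inner e j u (Nat.pos_of_ne_zero h) hj hv.symm
      subst h0
      rw [P.first] at hv
      have h1 : src e = u := (P.binj hv).symm
      refine ⟨e, mem_coe.2 (mem_filter.2 ⟨mem_univ _, Or.inl h1, hD⟩), ?_⟩
      simp only [if_pos h1]
    · have h0 : j + 1 = P.len e := by
        by_contra h
        exact P.inner e (j + 1) u (Nat.succ_pos j) (by omega) hv.symm
      rw [h0, P.last] at hv
      have h1 : tgt e = u := (P.binj hv).symm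
      have h2 : src e ≠ u := fun h => src_ne_tgt e (h.trans h1.symm)
      refine ⟨e, mem_coe.2 (mem_filter.2 ⟨mem_univ _, Or.inr h1, hD⟩), ?_⟩
      simp only [if_neg h2]
      congr 1
      omega

/-! ### Counting -/

/-- the pentagon edge with first end `u` -/
def pa : Fin 10 → Fin 15 := ![0, 1, 2, 3, 4, 10, 11, 12, 13, 14]

/-- the pentagon edge with second end `u` -/
def pb : Fin 10 → Fin 15 := ![4, 0, 1, 2, 3, 13, 14, 10, 11, 12]

/-- the edge of the matching at `u` -/
def ps : Fin 10 → Fin 15 := ![5, 6, 7, 8, 9, 5, 6, 7, 8, 9]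

lemma inc : ∀ u : Fin 10, (univ.filter fun e : Fin 15 => src e = u ∨ tgt e = u) =
    {pa u, pb u, ps u} := by decide

lemma ne3 : ∀ u : Fin 10, pa u ≠ pb u ∧ pa u ≠ ps u ∧ pb u ≠ ps u := by decide

lemma pw3 : ∀ u : Fin 10, pw (pa u) = 1 ∧ pw (pb u) = 1 ∧ pw (ps u) = 2 := by decide

/-- the trace of `C` in the Petersen graph -/
def xx (C : Finset E) (e : Fin 15) : ℕ := if P.ed e 0 ∈ C then 1 else 0

omit [Fintype V] [DecidableEq V] [Fintype E] in
lemma xx_le (C : Finset E) (e : Fin 15) : xx P C e ≤ 1 := by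
  unfold xx
  split_ifs <;> omega

omit [Fintype V] [Fintype E] in
lemma deg3 (hC : ∀ v, dg G C v = 0 ∨ dg G C v = 2)
    (hU : ∀ f ∈ C, ∃ e j, j < P.len e ∧ P.ed e j = f) (u : Fin 10) :
    xx P C (ps u) ≤ xx P C (pa u) + xx P C (pb u) := by
  have h1 := deg P hC hU u
  have h2 : (∑ e : Fin 15, if (src e = u ∨ tgt e = u) ∧ P.ed e 0 ∈ C then 1 else 0) =
      ∑ e ∈ univ.filter (fun e : Fin 15 => src e = u ∨ tgt e = u), xx P C e := by
    rw [sum_filter]
    refine sum_congr rfl fun e _ => ?_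
    unfold xx
    by_cases h3 : src e = u ∨ tgt e = u
    · by_cases h4 : P.ed e 0 ∈ C
      · rw [if_pos ⟨h3, h4⟩, if_pos h3, if_pos h4]
      · rw [if_neg fun h => h4 h.2, if_pos h3, if_neg h4]
    · rw [if_neg fun h => h3 h.1, if_neg h3]
  obtain ⟨n1, n2, n3⟩ := ne3 u
  rw [h2, inc, sum_insert (by simp [n1, n2]), sum_insert (by simp [n3]), sum_singleton] at h1
  have h5 := hC (P.b u)
  have h6 := xx_le P C (pa u)
  have h7 := xx_le P C (pb u)
  have h8 := xx_le P C (ps u)
  omega

lemma four (x : Fin 15 → ℕ) (hx : ∀ e, x e ≤ 1) (h : ∀ u, x (pa u) + x (pb u) = x (ps u)) :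
    4 ∣ x 5 + x 6 + x 7 + x 8 + x 9 := by
  have h0 : x 0 + x 4 = x 5 := h 0
  have h1 : x 1 + x 0 = x 6 := h 1
  have h2 : x 2 + x 1 = x 7 := h 2
  have h3 : x 3 + x 2 = x 8 := h 3
  have h4 : x 4 + x 3 = x 9 := h 4
  have h5 : x 10 + x 13 = x 5 := h 5
  have h6 : x 11 + x 14 = x 6 := h 6
  have h7 : x 12 + x 10 = x 7 := h 7
  have h8 : x 13 + x 11 = x 8 := h 8
  have h9 : x 14 + x 12 = x 9 := h 9
  have a0 := hx 0
  have a1 := hx 1
  have a2 := hx 2
  have a3 := hx 3
  have a4 := hx 4
  have b5 := hx 5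
  have b6 := hx 6
  have b7 := hx 7
  have b8 := hx 8
  have b9 := hx 9
  generalize x 0 = y0 at *
  generalize x 1 = y1 at *
  generalize x 2 = y2 at *
  generalize x 3 = y3 at *
  generalize x 4 = y4 at *
  interval_cases y0 <;> interval_cases y1 <;> interval_cases y2 <;> interval_cases y3 <;>
    interval_cases y4 <;> omega

omit [Fintype E] in
lemma count_sum (F : Multiset (Finset E)) (f : E) :
    (F.map fun C => if f ∈ C then 1 else 0).sum = F.countP (fun C => f ∈ C) := by
  induction F using Multiset.induction_on with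
  | empty => simp
  | cons a s ih =>
    rw [Multiset.map_cons, Multiset.sum_cons, ih, Multiset.countP_cons, add_comm]

lemma eq_of_sum {α : Type} (F : Multiset α) (g h : α → ℕ) (hle : ∀ C ∈ F, h C ≤ g C)
    (hs : (F.map g).sum = (F.map h).sum) : ∀ C ∈ F, g C = h C := by
  induction F using Multiset.induction_on with
  | empty => intro C hC; exact absurd hC (Multiset.notMem_zero C)
  | cons a s ih =>
    rw [Multiset.map_cons, Multiset.sum_cons, Multiset.map_cons, Multiset.sum_cons] at hs
    have h1 := hle a (Multiset.mem_cons_self a s)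
    have h2 : (s.map h).sum ≤ (s.map g).sum :=
      Multiset.sum_map_le_sum_map h g fun C hC => hle C (Multiset.mem_cons_of_mem hC)
    intro C hC
    rcases Multiset.mem_cons.1 hC with rfl | hC
    · omega
    · exact ih (fun C hC => hle C (Multiset.mem_cons_of_mem hC)) (by omega) C hC

omit [Fintype V] [Fintype E] in
lemma no_cover (hk : Odd k) : ¬ HasFaithfulCover G (wt P k) := by
  rintro ⟨F, hF, hc⟩
  have hU : ∀ C ∈ F, ∀ f ∈ C, ∃ e j, j < P.len e ∧ P.ed e j = f := by
    intro C hC f hf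
    apply wt_pos P k
    rw [← hc f]
    exact (Multiset.countP_pos_of_mem hC hf).ne'
  have hx : ∀ e, (F.map fun C => xx P C e).sum = k * pw e := by
    intro e
    rw [← wt_ed P k (P.pos e), ← hc]
    exact count_sum F (P.ed e 0)
  have heq : ∀ u, ∀ C ∈ F, xx P C (pa u) + xx P C (pb u) = xx P C (ps u) := by
    intro u
    apply eq_of_sum F (fun C => xx P C (pa u) + xx P C (pb u)) (fun C => xx P C (ps u))
    · intro C hC
      exact deg3 P (hF C hC).2.1 (hU C hC) u
    · rw [Multiset.sum_map_add, hx, hx, hx]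
      obtain ⟨h1, h2, h3⟩ := pw3 u
      rw [h1, h2, h3]
      ring
  have h4 : 4 ∣ (F.map fun C => xx P C 5 + xx P C 6 + xx P C 7 + xx P C 8 + xx P C 9).sum := by
    apply Multiset.dvd_sum
    intro a ha
    obtain ⟨C, hC, rfl⟩ := Multiset.mem_map.1 ha
    exact four (xx P C) (xx_le P C) fun u => heq u C hC
  rw [Multiset.sum_map_add, Multiset.sum_map_add, Multiset.sum_map_add, Multiset.sum_map_add,
    hx, hx, hx, hx, hx] at h4
  have h5 : k * pw 5 + k * pw 6 + k * pw 7 + k * pw 8 + k * pw 9 = 10 * k := by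
    have e5 : pw 5 = 2 := rfl
    have e6 : pw 6 = 2 := rfl
    have e7 : pw 7 = 2 := rfl
    have e8 : pw 8 = 2 := rfl
    have e9 : pw 9 = 2 := rfl
    rw [e5, e6, e7, e8, e9]
    ring
  rw [h5] at h4
  obtain ⟨m, hm⟩ := hk
  omega

omit [Fintype V] [DecidableEq V] [Fintype E] in
lemma wt_val (f : E) : wt P k f = 0 ∨ wt P k f = k ∨ wt P k f = 2 * k := by
  by_cases h : wt P k f = 0
  · exact Or.inl h
  · right
    obtain ⟨e, j, hj, rfl⟩ := wt_pos P k h
    rw [wt_ed P k hj]
    have h1 : ∀ e, pw e = 1 ∨ pw e = 2 := by decide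
    rcases h1 e with h1 | h1
    · left
      rw [h1, mul_one]
    · right
      rw [h1, mul_comm]

end

end Pool.Agent.P8H23.CC
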